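import Mathlib

/-!
Cayley polytopes of one dilated simplex `N Δ_n` and `m` copies of `Δ_n`: they have the integer
decomposition property; lattice point counts of the dilates.
-/

set_option autoImplicit false
open scoped Pointwise
open Finset

namespace Pool.Agent.H256R2.IDP

variable {n m : ℕ}

/-- sum of the first `n` coordinates -/
def X {R : Type*} [AddCommMonoid R] (z : Fin (n + m) → R) : R := ∑ i : Fin n, z (Fin.castAdd m i)

/-- sum of the last `m` coordinates -/
def Y {R : Type*} [AddCommMonoid R] (z : Fin (n + m) → R) : R := ∑ j : Fin m, z (Fin.natAdd n j)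

/-- the integer points of the `t`-th dilate -/
def T (N : ℕ) (t : ℕ) (z : Fin (n + m) → ℤ) : Prop :=
  (∀ i, 0 ≤ z i) ∧ Y z ≤ t ∧ X z + ((N : ℤ) - 1) * Y z ≤ N * t

theorem X_add (z w : Fin (n + m) → ℤ) : X (z + w) = X z + X w := by
  simp [X, Finset.sum_add_distrib]

theorem Y_add (z w : Fin (n + m) → ℤ) : Y (z + w) = Y z + Y w := by
  simp [Y, Finset.sum_add_distrib]

/-- take `c` units from a nonnegative integer vector supported in a set -/
theorem exists_sub {ι : Type*} [Fintype ι] [DecidableEq ι] (x : ι → ℤ) (hx : ∀ i, 0 ≤ x i) :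
    ∀ c : ℕ, (c : ℤ) ≤ ∑ i, x i → ∃ p : ι → ℤ, (∀ i, 0 ≤ p i) ∧ (∀ i, p i ≤ x i) ∧ ∑ i, p i = c := by
  intro c
  induction c with
  | zero => intro _; exact ⟨0, by simp, by simpa using hx, by simp⟩
  | succ c ih =>
    intro hc
    obtain ⟨p, hp0, hpx, hps⟩ := ih (by push_cast at hc; linarith)
    have : ∃ i, p i < x i := by
      by_contra hcon
      push Not at hcon
      have : ∑ i, x i ≤ ∑ i, p i := Finset.sum_le_sum fun i _ => hcon i
      push_cast at hc; linarith
    obtain ⟨i, hi⟩ := this
    refine ⟨p + Pi.single i 1, ?_, ?_, ?_⟩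
    · intro j
      by_cases h : j = i
      · subst h; simp; linarith [hp0 j]
      · simp [Pi.single_apply, h, hp0 j]
    · intro j
      by_cases h : j = i
      · subst h; simp; omega
      · simp [Pi.single_apply, h, hpx j]
    · simp [Finset.sum_add_distrib, hps]

theorem split_one {N : ℕ} (hN : 1 ≤ N) {t : ℕ} {z : Fin (n + m) → ℤ} (hz : T N (t + 1) z) :
    ∃ p : Fin (n + m) → ℤ, T N 1 p ∧ T N t (z - p) := by
  obtain ⟨h0, hY, hX⟩ := hz
  set x : Fin n → ℤ := fun i => z (Fin.castAdd m i) with hxdef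
  set y : Fin m → ℤ := fun j => z (Fin.natAdd n j) with hydef
  have hXx : X z = ∑ i, x i := rfl
  have hYy : Y z = ∑ j, y j := rfl
  have hx0 : ∀ i, 0 ≤ x i := fun i => h0 _
  have hy0 : ∀ j, 0 ≤ y j := fun j => h0 _
  have hXnn : 0 ≤ ∑ i, x i := Finset.sum_nonneg fun i _ => hx0 i
  have hYnn : 0 ≤ ∑ j, y j := Finset.sum_nonneg fun i _ => hy0 i
  -- generic construction
  have key : ∀ (a b : ℕ), (a : ℤ) ≤ ∑ i, x i → (b : ℤ) ≤ ∑ j, y j →
      (b : ℤ) ≤ 1 → (a : ℤ) + ((N : ℤ) - 1) * b ≤ N →
      (∑ j, y j) - b ≤ t → ((∑ i, x i) - a) + ((N : ℤ) - 1) * ((∑ j, y j) - b) ≤ N * t →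
      ∃ p : Fin (n + m) → ℤ, T N 1 p ∧ T N t (z - p) := by
    intro a b ha hb hb1 hab hbt habt
    obtain ⟨p, hp0, hpx, hps⟩ := exists_sub x hx0 a ha
    obtain ⟨q, hq0, hqx, hqs⟩ := exists_sub y hy0 b hb
    have eX : X (Fin.append p q) = a := by simp [X, hps]
    have eY : Y (Fin.append p q) = b := by simp [Y, hqs]
    have eX2 : X (z - Fin.append p q) = (∑ i, x i) - a := by
      simp [X, hps, hxdef]
    have eY2 : Y (z - Fin.append p q) = (∑ i, y i) - b := by
      simp [Y, hqs, hydef]
    refine ⟨Fin.append p q, ⟨?_, ?_, ?_⟩, ?_, ?_, ?_⟩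
    · intro i; refine Fin.addCases (fun i => ?_) (fun j => ?_) i
      · simpa using hp0 i
      · simpa using hq0 j
    · rw [eY]; simpa using hb1
    · rw [eX, eY]; simpa using hab
    · intro i; refine Fin.addCases (fun i => ?_) (fun j => ?_) i
      · simpa using hpx i
      · simpa using hqx j
    · rw [eY2]; exact hbt
    · rw [eX2, eY2]; exact habt
  rw [hXx, hYy] at hX
  rw [hYy] at hY
  push_cast at hY hX
  have hN' : (1 : ℤ) ≤ N := by exact_mod_cast hN
  by_cases hcase : (∑ j, y j) ≤ t
  · -- take `min N (sum x)` from x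
    by_cases hN2 : (N : ℤ) ≤ ∑ i, x i
    · refine key N 0 hN2 (by simpa using hYnn) (by norm_num) (by simp) (by simpa using hcase) ?_
      push_cast; linarith
    · push Not at hN2
      obtain ⟨a, ha⟩ := Int.eq_ofNat_of_zero_le hXnn
      refine key a 0 (by simp [ha]) (by simpa using hYnn) (by norm_num) ?_ (by simpa using hcase) ?_
      · have : (a : ℤ) < N := by rw [← ha]; exact hN2
        simp; omega
      · rw [ha]; push_cast
        have : ((N : ℤ) - 1) * (∑ j, y j) ≤ ((N : ℤ) - 1) * t :=
          mul_le_mul_of_nonneg_left hcase (by linarith)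
        have h3 : (0 : ℤ) ≤ t := by positivity
        simp
        nlinarith
  · push Not at hcase
    have hYt : (∑ j, y j) = t + 1 := by omega
    by_cases hx1 : (1 : ℤ) ≤ ∑ i, x i
    · refine key 1 1 (by simpa using hx1) (by push_cast; rw [hYt]; linarith [Int.natCast_nonneg t])
        (by norm_num) (by push_cast; linarith) (by rw [hYt]; push_cast; linarith) ?_
      rw [hYt] at hX ⊢; push_cast; nlinarith
    · have hx00 : ∑ i, x i = 0 := by omega
      refine key 0 1 (by simp [hx00]) (by push_cast; rw [hYt]; linarith [Int.natCast_nonneg t])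
        (by norm_num) (by push_cast; linarith) (by rw [hYt]; push_cast; linarith) ?_
      rw [hYt, hx00]; push_cast
      have h3 : (0 : ℤ) ≤ t := by positivity
      nlinarith

theorem T_zero {N : ℕ} {z : Fin (n + m) → ℤ} (hN : 1 ≤ N) (hz : T N 0 z) : z = 0 := by
  obtain ⟨h0, hY, hX⟩ := hz
  have hN' : (1 : ℤ) ≤ N := by exact_mod_cast hN
  have hXnn : 0 ≤ X z := Finset.sum_nonneg fun i _ => h0 _
  have hYnn : 0 ≤ Y z := Finset.sum_nonneg fun i _ => h0 _
  have hY0 : Y z = 0 := by push_cast at hY; linarith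
  have hX0 : X z = 0 := by rw [hY0] at hX; push_cast at hX; linarith
  funext i
  refine Fin.addCases (fun i => ?_) (fun j => ?_) i
  · exact (Finset.sum_eq_zero_iff_of_nonneg (fun i _ => h0 _)).1 hX0 i (Finset.mem_univ _)
  · exact (Finset.sum_eq_zero_iff_of_nonneg (fun i _ => h0 _)).1 hY0 j (Finset.mem_univ _)

/-- integer decomposition -/
theorem decomp {N : ℕ} (hN : 1 ≤ N) : ∀ (t : ℕ) (z : Fin (n + m) → ℤ), T N t z →
    ∃ f : Fin t → (Fin (n + m) → ℤ), (∀ j, T N 1 (f j)) ∧ ∑ j, f j = z := by
  intro t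
  induction t with
  | zero => intro z hz; exact ⟨fun j => j.elim0, fun j => j.elim0, by simp [T_zero hN hz]⟩
  | succ t ih =>
    intro z hz
    obtain ⟨p, hp, hzp⟩ := split_one hN hz
    obtain ⟨f, hf, hs⟩ := ih _ hzp
    refine ⟨Fin.cons p f, ?_, ?_⟩
    · intro j; refine Fin.cases ?_ (fun j => ?_) j
      · simpa using hp
      · simpa using hf j
    · rw [Fin.sum_univ_succ]; simp [hs]

/-- real cast of an integer vector -/
def cst (z : Fin (n + m) → ℤ) : Fin (n + m) → ℝ := fun i => (z i : ℝ)

theorem T_one_bounds {N : ℕ} (hN : 1 ≤ N) {z : Fin (n + m) → ℤ} (hz : T N 1 z) (i) :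
    0 ≤ z i ∧ z i ≤ N := by
  obtain ⟨h0, hY, hX⟩ := hz
  have hN' : (1 : ℤ) ≤ N := by exact_mod_cast hN
  have hXnn : 0 ≤ X z := Finset.sum_nonneg fun i _ => h0 _
  have hYnn : 0 ≤ Y z := Finset.sum_nonneg fun i _ => h0 _
  refine ⟨h0 i, ?_⟩
  refine Fin.addCases (fun i => ?_) (fun j => ?_) i
  · have : z (Fin.castAdd m i) ≤ X z :=
      Finset.single_le_sum (f := fun i => z (Fin.castAdd m i)) (fun i _ => h0 _) (Finset.mem_univ i)
    push_cast at hX; nlinarith
  · have : z (Fin.natAdd n j) ≤ Y z :=
      Finset.single_le_sum (f := fun i => z (Fin.natAdd n i)) (fun i _ => h0 _) (Finset.mem_univ j)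
    push_cast at hY; linarith

open Classical in
/-- the lattice points of the polytope, as a finset -/
noncomputable def S (n m N : ℕ) : Finset (Fin (n + m) → ℤ) :=
  (Fintype.piFinset fun _ : Fin (n + m) => Finset.Icc (0 : ℤ) N).filter (T N 1)

theorem mem_S {N : ℕ} (hN : 1 ≤ N) {z : Fin (n + m) → ℤ} : z ∈ S n m N ↔ T N 1 z := by
  classical
  unfold S
  rw [Finset.mem_filter]
  constructor
  · exact fun h => h.2
  · intro h
    refine ⟨?_, h⟩
    rw [Fintype.mem_piFinset]
    intro i
    rw [Finset.mem_Icc]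
    exact T_one_bounds hN h i

/-- the polytope -/
def P (n m N : ℕ) : Set (Fin (n + m) → ℝ) :=
  convexHull ℝ ((fun v : Fin (n + m) → ℤ => fun i => (v i : ℝ)) '' (S n m N : Set (Fin (n + m) → ℤ)))

theorem P_sub {N : ℕ} (hN : 1 ≤ N) : P n m N ⊆
    {x | (∀ i, 0 ≤ x i) ∧ Y x ≤ 1 ∧ X x + ((N : ℝ) - 1) * Y x ≤ N} := by
  apply convexHull_min
  · rintro _ ⟨z, hz, rfl⟩
    rw [Finset.mem_coe, mem_S hN] at hz
    obtain ⟨h0, hY, hX⟩ := hz
    refine ⟨fun i => by change (0 : ℝ) ≤ ((z i : ℤ) : ℝ); exact_mod_cast h0 i, ?_, ?_⟩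
    · have : ((Y z : ℤ) : ℝ) ≤ ((1 : ℕ) : ℤ) := by exact_mod_cast hY
      simpa [Y] using this
    · have : ((X z + ((N : ℤ) - 1) * Y z : ℤ) : ℝ) ≤ ((N * (1 : ℕ) : ℤ) : ℝ) := by exact_mod_cast hX
      simpa [X, Y] using this
  · intro x hx y hy a b ha hb hab
    obtain ⟨hx0, hxY, hxX⟩ := hx
    obtain ⟨hy0, hyY, hyX⟩ := hy
    have eY : Y (a • x + b • y) = a * Y x + b * Y y := by
      simp [Y, Finset.sum_add_distrib, Finset.mul_sum]
    have eX : X (a • x + b • y) = a * X x + b * X y := by
      simp [X, Finset.sum_add_distrib, Finset.mul_sum]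
    refine ⟨fun i => ?_, ?_, ?_⟩
    · have := mul_nonneg ha (hx0 i)
      have := mul_nonneg hb (hy0 i)
      simp only [Pi.add_apply, Pi.smul_apply, smul_eq_mul]; linarith
    · rw [eY]; nlinarith
    · rw [eX, eY]
      have h1 : a * (X x + ((N : ℝ) - 1) * Y x) ≤ a * N := mul_le_mul_of_nonneg_left hxX ha
      have h2 : b * (X y + ((N : ℝ) - 1) * Y y) ≤ b * N := mul_le_mul_of_nonneg_left hyX hb
      have h3 : a * (N : ℝ) + b * N = N := by rw [← add_mul, hab, one_mul]
      nlinarith

theorem S_P {N : ℕ} {z : Fin (n + m) → ℤ} (hz : z ∈ S n m N) :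
    (fun i => (z i : ℝ)) ∈ P n m N :=
  subset_convexHull ℝ _ ⟨z, hz, rfl⟩

theorem zero_S {N : ℕ} (hN : 1 ≤ N) : (0 : Fin (n + m) → ℤ) ∈ S n m N := by
  rw [mem_S hN]
  refine ⟨by simp, by simp [Y], by simp [X, Y]⟩

theorem mem_smul_P {N : ℕ} (hN : 1 ≤ N) (t : ℕ) (z : Fin (n + m) → ℤ) :
    (fun i => (z i : ℝ)) ∈ (t : ℝ) • P n m N ↔ T N t z := by
  constructor
  · rintro ⟨p, hp, hpz⟩
    obtain ⟨h0, hY, hX⟩ := P_sub hN hp
    have hz : ∀ i, (z i : ℝ) = t * p i := fun i => by
      have := congrFun hpz i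
      simp at this; linarith
    have ht : (0 : ℝ) ≤ t := by positivity
    have eY : ((Y z : ℤ) : ℝ) = t * Y p := by
      simp only [Y]; push_cast; rw [Finset.mul_sum]; exact Finset.sum_congr rfl fun j _ => hz _
    have eX : ((X z : ℤ) : ℝ) = t * X p := by
      simp only [X]; push_cast; rw [Finset.mul_sum]; exact Finset.sum_congr rfl fun j _ => hz _
    refine ⟨fun i => ?_, ?_, ?_⟩
    · have : (0 : ℝ) ≤ (z i : ℝ) := by rw [hz]; exact mul_nonneg ht (h0 i)
      exact_mod_cast this
    · have : ((Y z : ℤ) : ℝ) ≤ t := by rw [eY]; nlinarith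
      exact_mod_cast this
    · have : ((X z : ℤ) : ℝ) + ((N : ℝ) - 1) * ((Y z : ℤ) : ℝ) ≤ N * t := by
        rw [eY, eX]
        have := mul_le_mul_of_nonneg_left hX ht
        nlinarith
      exact_mod_cast this
  · intro hT
    rcases Nat.eq_zero_or_pos t with rfl | ht
    · refine ⟨fun i => ((0 : Fin (n + m) → ℤ) i : ℝ), S_P (zero_S hN), ?_⟩
      rw [T_zero hN hT]
      funext i; simp
    · obtain ⟨f, hf, hs⟩ := decomp hN t z hT
      have ht' : (0 : ℝ) < t := by exact_mod_cast ht
      refine ⟨∑ j : Fin t, (1 / (t : ℝ)) • (fun i => (f j i : ℝ)), ?_, ?_⟩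
      · refine (convex_convexHull ℝ _).sum_mem (fun j _ => by positivity) ?_ (fun j _ => ?_)
        · simp; field_simp
        · exact S_P ((mem_S hN).2 (hf j))
      · funext i
        have : (z i : ℝ) = ∑ j : Fin t, (f j i : ℝ) := by
          rw [← hs]; simp
        simp only [Pi.smul_apply, Finset.sum_apply, smul_eq_mul]
        rw [this, ← Finset.mul_sum, ← mul_assoc]
        rw [mul_one_div_cancel ht'.ne', one_mul]

theorem P_convex_eq (n m N : ℕ) : P n m N =
  convexHull ℝ ((fun v : Fin (n + m) → ℤ => fun i => (v i : ℝ)) ''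
    (S n m N : Set (Fin (n + m) → ℤ))) := rfl

theorem P_idp {N : ℕ} (hN : 1 ≤ N) (k : ℕ) (z : Fin (n + m) → ℤ)
    (hz : (fun i => (z i : ℝ)) ∈ (k : ℝ) • P n m N) :
    ∃ f : Fin k → (Fin (n + m) → ℤ), (∀ j, (fun i => (f j i : ℝ)) ∈ P n m N) ∧ ∑ j, f j = z := by
  rw [mem_smul_P hN] at hz
  obtain ⟨f, hf, hs⟩ := decomp hN k z hz
  exact ⟨f, fun j => S_P ((mem_S hN).2 (hf j)), hs⟩

theorem finrank_P {N : ℕ} (hN : 1 ≤ N) : Module.finrank ℝ (vectorSpan ℝ (P n m N)) = n + m := by
  have htop : vectorSpan ℝ (P n m N) = ⊤ := by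
    rw [eq_top_iff]
    have h0 : (fun i => ((0 : Fin (n + m) → ℤ) i : ℝ)) ∈ P n m N := S_P (zero_S hN)
    have h1 : ∀ i : Fin (n + m), (Pi.single i (1 : ℝ) : Fin (n + m) → ℝ) ∈ vectorSpan ℝ (P n m N) := by
      intro i
      have hS : (Pi.single i 1 : Fin (n + m) → ℤ) ∈ S n m N := by
        rw [mem_S hN]
        have hN' : (1 : ℤ) ≤ N := by exact_mod_cast hN
        refine ⟨fun j => ?_, ?_, ?_⟩
        · by_cases h : j = i
          · subst h; simp
          · simp [Pi.single_apply, h]
        · refine Fin.addCases (fun i => ?_) (fun j => ?_) i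
          · have : Y (Pi.single (Fin.castAdd m i) 1 : Fin (n + m) → ℤ) = 0 := by
              unfold Y
              apply Finset.sum_eq_zero
              intro j _
              rw [Pi.single_apply, if_neg]
              intro h
              have := congrArg Fin.val h
              simp at this
              omega
            rw [this]; norm_num
          · have : Y (Pi.single (Fin.natAdd n j) 1 : Fin (n + m) → ℤ) = 1 := by
              unfold Y
              rw [Finset.sum_eq_single j]
              · simp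
              · intro b _ hb
                rw [Pi.single_apply, if_neg]
                intro h; exact hb (by simpa [Fin.ext_iff] using h)
              · simp
            rw [this]; norm_num
        · refine Fin.addCases (fun i => ?_) (fun j => ?_) i
          · have e1 : Y (Pi.single (Fin.castAdd m i) 1 : Fin (n + m) → ℤ) = 0 := by
              unfold Y
              apply Finset.sum_eq_zero
              intro j _
              rw [Pi.single_apply, if_neg]
              intro h
              have := congrArg Fin.val h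
              simp at this
              omega
            have e2 : X (Pi.single (Fin.castAdd m i) 1 : Fin (n + m) → ℤ) = 1 := by
              unfold X
              rw [Finset.sum_eq_single i]
              · simp
              · intro b _ hb
                rw [Pi.single_apply, if_neg]
                intro h; exact hb (by simpa [Fin.ext_iff] using h)
              · simp
            rw [e1, e2]; push_cast; linarith
          · have e1 : Y (Pi.single (Fin.natAdd n j) 1 : Fin (n + m) → ℤ) = 1 := by
              unfold Y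
              rw [Finset.sum_eq_single j]
              · simp
              · intro b _ hb
                rw [Pi.single_apply, if_neg]
                intro h; exact hb (by simpa [Fin.ext_iff] using h)
              · simp
            have e2 : X (Pi.single (Fin.natAdd n j) 1 : Fin (n + m) → ℤ) = 0 := by
              unfold X
              apply Finset.sum_eq_zero
              intro i _
              rw [Pi.single_apply, if_neg]
              intro h
              have := congrArg Fin.val h
              simp at this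
              omega
            rw [e1, e2]; push_cast; linarith
      have hm := vsub_mem_vectorSpan ℝ (S_P hS) h0
      convert hm using 1
      funext j
      simp only [vsub_eq_sub, Pi.sub_apply, Pi.zero_apply, Int.cast_zero, sub_zero]
      by_cases h : j = i
      · subst h; simp
      · simp [Pi.single_apply, h]
    intro x _
    have : x = ∑ i, x i • (Pi.single i (1 : ℝ) : Fin (n + m) → ℝ) := by
      funext j
      simp [Finset.sum_apply, Pi.single_apply]
    rw [this]
    exact Submodule.sum_mem _ fun i _ => Submodule.smul_mem _ _ (h1 i)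
  rw [htop, finrank_top]
  simp

end Pool.Agent.H256R2.IDP
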