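import Pool.Agent.H256R2.IDP

/-!
Number of lattice points of the dilates of the Cayley polytopes of `IDP.lean`.
-/

set_option autoImplicit false
open Finset
open scoped Pointwise

namespace Pool.Agent.H256R2.IDP

variable {n m : ℕ}

/-- vectors of naturals with given sum -/
def A (k a : ℕ) : Finset (Fin k → ℕ) := Finset.piAntidiag Finset.univ a

theorem mem_A {k a : ℕ} {f : Fin k → ℕ} : f ∈ A k a ↔ ∑ i, f i = a := by
  simp [A, Finset.mem_piAntidiag]

theorem card_A (k a : ℕ) : (A k a).card = (k + a - 1).choose a := by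
  classical
  have h := Finset.card_finsuppAntidiag_nat_eq_choose (s := (Finset.univ : Finset (Fin k))) a
  rw [Finset.card_univ, Fintype.card_fin] at h
  rw [← h]
  refine Finset.card_bij' (fun f _ => Finsupp.equivFunOnFinite.symm f)
    (fun g _ => (g : Fin k → ℕ)) ?_ ?_ ?_ ?_
  · intro f hf
    rw [mem_A] at hf
    rw [Finset.mem_finsuppAntidiag]
    refine ⟨by simpa using hf, by simp⟩
  · intro g hg
    rw [Finset.mem_finsuppAntidiag] at hg
    rw [mem_A]
    exact hg.1
  · intro f _; rfl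
  · intro g _; ext; rfl

theorem hockey (k a : ℕ) : ∑ b ∈ Finset.range (a + 1), (k + b - 1).choose b = (k + a).choose a := by
  induction a with
  | zero => simp
  | succ a ih =>
    rw [Finset.sum_range_succ, ih]
    have : k + (a + 1) - 1 = k + a := by omega
    rw [this, ← add_assoc, Nat.choose_succ_succ]

/-- natural vectors with sum at most `a` -/
def LE (k a : ℕ) : Finset (Fin k → ℕ) := (Finset.range (a + 1)).biUnion fun b => A k b

theorem mem_LE {k a : ℕ} {f : Fin k → ℕ} : f ∈ LE k a ↔ ∑ i, f i ≤ a := by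
  simp [LE, mem_A, Nat.lt_succ_iff]

theorem card_LE (k a : ℕ) : (LE k a).card = (k + a).choose k := by
  unfold LE
  rw [Finset.card_biUnion]
  · simp only [card_A]
    rw [hockey]
    exact (Nat.choose_symm_add).symm
  · intro b _ c _ hbc
    rw [Function.onFun, Finset.disjoint_left]
    intro f hf hf'
    rw [mem_A] at hf hf'
    exact hbc (hf.symm.trans hf')

/-- pairs of natural vectors in the `t`-th dilate -/
def Q (n m N t : ℕ) : Finset ((Fin n → ℕ) × (Fin m → ℕ)) :=
  (Finset.range (t + 1)).biUnion fun s => LE n (N * t - (N - 1) * s) ×ˢ A m s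

theorem card_Q (n m N t : ℕ) : (Q n m N t).card =
    ∑ s ∈ Finset.range (t + 1), (n + (N * t - (N - 1) * s)).choose n * (m + s - 1).choose s := by
  unfold Q
  rw [Finset.card_biUnion]
  · apply Finset.sum_congr rfl
    intro s _
    rw [Finset.card_product, card_LE, card_A]
  · intro b _ c _ hbc
    rw [Function.onFun, Finset.disjoint_left]
    rintro ⟨f, g⟩ hf hf'
    rw [Finset.mem_product, mem_A] at hf hf'
    exact hbc (hf.2.symm.trans hf'.2)

/-- the embedding of pairs of natural vectors -/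
def Phi (p : (Fin n → ℕ) × (Fin m → ℕ)) : Fin (n + m) → ℤ := fun i => ((Fin.append p.1 p.2 i : ℕ) : ℤ)

theorem Phi_inj : Function.Injective (Phi : (Fin n → ℕ) × (Fin m → ℕ) → Fin (n + m) → ℤ) := by
  rintro ⟨f, g⟩ ⟨f', g'⟩ h
  have h' : ∀ i, Fin.append f g i = Fin.append f' g' i := fun i => by
    have := congrFun h i
    simp only [Phi] at this
    exact_mod_cast this
  refine Prod.ext (funext fun i => ?_) (funext fun j => ?_)
  · simpa using h' (Fin.castAdd m i)
  · simpa using h' (Fin.natAdd n j)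

theorem setOf_T {N : ℕ} (hN : 1 ≤ N) (t : ℕ) :
    {z : Fin (n + m) → ℤ | T N t z} = Phi '' (Q n m N t : Set ((Fin n → ℕ) × (Fin m → ℕ))) := by
  have hN' : (1 : ℤ) ≤ N := by exact_mod_cast hN
  have hcast : ((N - 1 : ℕ) : ℤ) = (N : ℤ) - 1 := by push_cast [Nat.cast_sub hN]; ring
  have hsub : ∀ s : ℕ, s ≤ t → (N - 1) * s ≤ N * t := fun s hs =>
    Nat.mul_le_mul (Nat.sub_le _ _) hs
  ext z
  constructor
  · rintro ⟨h0, hY, hX⟩
    obtain ⟨w, hw⟩ : ∃ w : Fin (n + m) → ℕ, ∀ i, z i = w i :=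
      ⟨fun i => (z i).toNat, fun i => (Int.toNat_of_nonneg (h0 i)).symm⟩
    refine ⟨(fun i => w (Fin.castAdd m i), fun j => w (Fin.natAdd n j)), ?_, ?_⟩
    · have eY : Y z = ((∑ j : Fin m, w (Fin.natAdd n j) : ℕ) : ℤ) := by
        simp [Y, hw]
      have eX : X z = ((∑ i : Fin n, w (Fin.castAdd m i) : ℕ) : ℤ) := by
        simp [X, hw]
      rw [eY] at hY hX
      rw [eX, ← hcast] at hX
      have hY' : (∑ j : Fin m, w (Fin.natAdd n j)) ≤ t := by exact_mod_cast hY
      have hX' : (∑ i : Fin n, w (Fin.castAdd m i)) + (N - 1) * (∑ j : Fin m, w (Fin.natAdd n j))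
          ≤ N * t := by exact_mod_cast hX
      simp only [Q, Finset.coe_biUnion, Set.mem_iUnion, Finset.mem_coe, Finset.mem_range,
        Finset.mem_product, mem_A, mem_LE]
      exact ⟨_, Nat.lt_succ_of_le hY', by omega, rfl⟩
    · funext i
      simp only [Phi]
      refine Fin.addCases (fun i => ?_) (fun j => ?_) i
      · simp [hw]
      · simp [hw]
  · rintro ⟨⟨f, g⟩, hfg, rfl⟩
    simp only [Q, Finset.coe_biUnion, Set.mem_iUnion, Finset.mem_coe, Finset.mem_range,
        Finset.mem_product, mem_A, mem_LE] at hfg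
    obtain ⟨s, hs, hf, hg⟩ := hfg
    have eY : Y (Phi (f, g) : Fin (n + m) → ℤ) = ((∑ j, g j : ℕ) : ℤ) := by
      simp [Y, Phi]
    have eX : X (Phi (f, g) : Fin (n + m) → ℤ) = ((∑ j, f j : ℕ) : ℤ) := by
      simp [X, Phi]
    refine ⟨fun i => by simp only [Phi]; positivity, ?_, ?_⟩
    · rw [eY, hg]; exact_mod_cast Nat.lt_succ_iff.1 hs
    · rw [eY, eX, hg, ← hcast]
      have := hsub s (Nat.lt_succ_iff.1 hs)
      have h2 : (∑ j, f j) + (N - 1) * s ≤ N * t := by omega
      exact_mod_cast h2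

theorem ncard_T {N : ℕ} (hN : 1 ≤ N) (t : ℕ) :
    Set.ncard {z : Fin (n + m) → ℤ | T N t z} =
    ∑ s ∈ Finset.range (t + 1), (n + (N * t - (N - 1) * s)).choose n * (m + s - 1).choose s := by
  rw [setOf_T hN, Set.ncard_image_of_injective _ Phi_inj, Set.ncard_coe_finset, card_Q]

/-- efficient binomial coefficient -/
def fc (a k : ℕ) : ℕ := a.descFactorial k / k.factorial

theorem fc_eq (a k : ℕ) : a.choose k = fc a k := Nat.choose_eq_descFactorial_div_factorial a k

/-- the number of lattice points in the `t`-th dilate, computed -/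
def E (n m N t : ℕ) : ℕ :=
  ∑ s ∈ Finset.range (t + 1), fc (n + (N * t - (N - 1) * s)) n * fc (m + s - 1) s

/-- coefficients of the h-star polynomial, computed -/
def H (n m N j : ℕ) : ℤ :=
  ∑ i ∈ Finset.range (j + 1), (-1 : ℤ) ^ i * ((fc (n + m + 1) i : ℕ) : ℤ) * ((E n m N (j - i) : ℕ) : ℤ)

theorem hstar_eq {N : ℕ} (hN : 1 ≤ N) (j : ℕ) :
    ∑ i ∈ Finset.range (j + 1),
        (-1 : ℤ) ^ i * ((Nat.choose (n + m + 1) i : ℕ) : ℤ) *
          ((Set.ncard {z : Fin (n + m) → ℤ | (fun l => (z l : ℝ)) ∈ (((j - i : ℕ) : ℝ)) • P n m N} : ℕ) : ℤ)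
      = H n m N j := by
  unfold H E
  apply Finset.sum_congr rfl
  intro i _
  rw [fc_eq]
  congr 2
  have : {z : Fin (n + m) → ℤ | (fun l => (z l : ℝ)) ∈ (((j - i : ℕ) : ℝ)) • P n m N} =
      {z : Fin (n + m) → ℤ | T N (j - i) z} := by
    ext z
    exact mem_smul_P hN (j - i) z
  rw [this, ncard_T hN]
  apply Finset.sum_congr rfl
  intro s _
  rw [fc_eq, fc_eq]

end Pool.Agent.H256R2.IDP
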