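import Pool.Agent.H256R2.IDPCount

/-!
Abstract form of the refutation: whenever the computed coefficients dip, unimodality fails.
-/

set_option autoImplicit false
open scoped Pointwise

namespace Pool.Agent.H256R2.IDP

theorem refute (n m N c : ℕ) (hN : 1 ≤ N) (hc : c + 2 ≤ n + m)
    (h1 : H n m N (c + 1) < H n m N c) (h2 : H n m N (c + 1) < H n m N (c + 2)) :
    ¬ (∀ (d : ℕ) (S : Finset (Fin d → ℤ)), S.Nonempty →
    ∀ (P : Set (Fin d → ℝ)),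
      P = convexHull ℝ ((fun v : Fin d → ℤ => fun i => (v i : ℝ)) '' (S : Set (Fin d → ℤ))) →
    (∀ k : ℕ, 1 ≤ k → ∀ z : Fin d → ℤ, (fun i => (z i : ℝ)) ∈ (k : ℝ) • P →
      ∃ f : Fin k → (Fin d → ℤ), (∀ j, (fun i => (f j i : ℝ)) ∈ P) ∧ ∑ j, f j = z) →
    ∀ (n : ℕ), n = Module.finrank ℝ (vectorSpan ℝ P) →
    ∀ (h : ℕ → ℤ),
      (∀ j, h j = ∑ i ∈ Finset.range (j + 1),
        (-1 : ℤ) ^ i * ((Nat.choose (n + 1) i : ℕ) : ℤ) *
          ((Set.ncard {z : Fin d → ℤ | (fun l => (z l : ℝ)) ∈ (((j - i : ℕ) : ℝ)) • P} : ℕ) : ℤ)) →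
    ∃ m : ℕ, m ≤ n ∧
      (∀ a b : ℕ, a ≤ b → b ≤ m → h a ≤ h b) ∧
      (∀ a b : ℕ, m ≤ a → a ≤ b → b ≤ n → h b ≤ h a)) := by
  intro hall
  obtain ⟨k, hk, hup, hdown⟩ := hall (n + m) (S n m N)
    ⟨0, zero_S hN⟩ (P n m N) rfl
    (fun k _ z hz => P_idp hN k z hz) (n + m)
    (finrank_P hN).symm (H n m N)
    (fun j => (hstar_eq hN j).symm)
  rcases le_total k (c + 1) with h | h
  · exact absurd (hdown (c + 1) (c + 2) h (by omega) hc) (not_le.mpr h2)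
  · exact absurd (hup c (c + 1) (by omega) h) (not_le.mpr h1)

end Pool.Agent.H256R2.IDP
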